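/-
MP_db50ff_an.SomePositiveOrder

In every dimension `n ≥ 2` some positive Hölder order is attained by an admissible function: there
are `α ∈ (0, 1/2]` and `f` in the ball algebra of `ℂ^n` with `‖f‖_∞ ≤ 1`, `f(0) = 0`,
`σ{|f| = 1} > 0`, which is Hölder continuous of order `α` on the closed ball.
-/
import Mathlib
import Pool.Agent.Lib.MP_db50ff_an.Sphere

set_option autoImplicit false

namespace Pool.Agent.Results.MP_db50ff_an.SomePositiveOrder

open MeasureTheory Metric Complex Set Pool.Agent.MPdb50ff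

theorem result (n : ℕ) (hn : 2 ≤ n) :
    ∃ α : ℝ, 0 < α ∧ α ≤ 1 / 2 ∧ ∃ f : Cn n → ℂ, Admissible n f ∧ LipOrder n α f := by
  obtain ⟨d, rfl⟩ : ∃ d, n = d + 1 := ⟨n - 1, by omega⟩
  obtain ⟨α, hα0, hα1, h, hc, hd, h0, hpos, ⟨C, hC⟩, hvol⟩ := exists_limit d
  refine ⟨α, hα0, hα1, fun z => (h z - 1) / (h z + 1), ?_, ?_⟩
  · have hne : ∀ z ∈ closedBall (0 : Cn (d+1)) 1, h z + 1 ≠ 0 := by
      intro z hz h1
      have h2 := congrArg Complex.re h1
      simp only [Complex.add_re, Complex.one_re, Complex.zero_re] at h2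
      linarith [hpos z hz]
    have hcont : ContinuousOn (fun z => (h z - 1) / (h z + 1)) (closedBall (0 : Cn (d+1)) 1) :=
      (hc.sub continuousOn_const).div (hc.add continuousOn_const) hne
    have hnsq : ∀ x : ℂ, normSq (x + 1) - normSq (x - 1) = 4 * x.re := by
      intro x
      simp only [Complex.normSq_apply, Complex.add_re, Complex.add_im, Complex.sub_re,
        Complex.sub_im, Complex.one_re, Complex.one_im]
      ring
    refine ⟨hcont, ?_, ?_, ?_, ?_⟩
    · intro z hz
      have h1 : DifferentiableAt ℂ h z := hd.differentiableAt (isOpen_ball.mem_nhds hz)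
      have h2 : DifferentiableAt ℂ (fun z => (h z + 1)⁻¹) z :=
        (h1.add (differentiableAt_const _)).inv (hne z (ball_subset_closedBall hz))
      have h3 : DifferentiableAt ℂ (fun z => (h z - 1) * (h z + 1)⁻¹) z :=
        (h1.sub (differentiableAt_const _)).mul h2
      exact h3.differentiableWithinAt
    · intro z hz
      have h1 : 0 < ‖h z + 1‖ := norm_pos_iff.2 (hne z hz)
      rw [norm_div, div_le_one h1]
      have h2 := hnsq (h z)
      rw [Complex.normSq_eq_norm_sq, Complex.normSq_eq_norm_sq] at h2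
      have h3 := hpos z hz
      nlinarith [norm_nonneg (h z - 1)]
    · simp [h0]
    · apply sigma_pos
      · have hcl : IsClosed {ζ : sphere (0 : Cn (d+1)) 1 | ‖(h ζ - 1) / (h ζ + 1)‖ = 1} := by
          have h1 : Continuous fun ζ : sphere (0 : Cn (d+1)) 1 => (h ζ - 1) / (h ζ + 1) :=
            hcont.comp_continuous continuous_subtype_val fun ζ => sphere_subset_closedBall ζ.2
          exact isClosed_eq (continuous_norm.comp h1) continuous_const
        exact hcl.measurableSet
      · refine lt_of_lt_of_le hvol (measure_mono ?_)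
        rintro w ⟨hw, hre⟩
        have hn1 : ‖nz w‖ = 1 := norm_nz (region_ne_zero hw)
        refine ⟨hw, ⟨nz w, mem_sphere_zero_iff_norm.2 hn1⟩, ?_, rfl⟩
        have hz : nz w ∈ closedBall (0 : Cn (d+1)) 1 := by
          rw [mem_closedBall_zero_iff, hn1]
        have h1 : 0 < ‖h (nz w) + 1‖ := norm_pos_iff.2 (hne _ hz)
        show ‖(h (nz w) - 1) / (h (nz w) + 1)‖ = 1
        rw [norm_div, div_eq_one_iff_eq h1.ne']
        have h2 := hnsq (h (nz w))
        rw [Complex.normSq_eq_norm_sq, Complex.normSq_eq_norm_sq, hre] at h2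
        nlinarith [norm_nonneg (h (nz w) - 1)]
  · refine ⟨2 * C, ?_⟩
    intro z hz w hw
    have h1 : 1 ≤ ‖h z + 1‖ := by
      have := Complex.re_le_norm (h z + 1)
      rw [Complex.add_re, Complex.one_re] at this
      linarith [hpos z hz]
    have h2 : 1 ≤ ‖h w + 1‖ := by
      have := Complex.re_le_norm (h w + 1)
      rw [Complex.add_re, Complex.one_re] at this
      linarith [hpos w hw]
    have h1' : h z + 1 ≠ 0 := norm_pos_iff.1 (by linarith)
    have h2' : h w + 1 ≠ 0 := norm_pos_iff.1 (by linarith)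
    have e : (h z - 1) / (h z + 1) - (h w - 1) / (h w + 1) =
        2 * (h z - h w) / ((h z + 1) * (h w + 1)) := by
      field_simp
      ring
    rw [e, norm_div, norm_mul, norm_mul]
    have h3 : (1 : ℝ) ≤ ‖h z + 1‖ * ‖h w + 1‖ := one_le_mul_of_one_le_of_one_le h1 h2
    calc ‖(2 : ℂ)‖ * ‖h z - h w‖ / (‖h z + 1‖ * ‖h w + 1‖)
        ≤ ‖(2 : ℂ)‖ * ‖h z - h w‖ := div_le_self (by positivity) h3
      _ = 2 * ‖h z - h w‖ := by simp
      _ ≤ 2 * (C * ‖z - w‖ ^ α) := mul_le_mul_of_nonneg_left (hC z hz w hw) (by norm_num)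
      _ = 2 * C * ‖z - w‖ ^ α := by ring

end Pool.Agent.Results.MP_db50ff_an.SomePositiveOrder
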